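import Mathlib

set_option autoImplicit false
open MeasureTheory Metric Set ProbabilityTheory
open scoped ENNReal

namespace Pool.Agent.H624R3.AQ

section polar
variable {E : Type*} [NormedAddCommGroup E] [NormedSpace ℝ E] [FiniteDimensional ℝ E]
  [MeasurableSpace E] [BorelSpace E] [Nontrivial E] (μ : Measure E) [μ.IsAddHaarMeasure]

lemma polar (f : E → ℝ≥0∞) (hf : Measurable f) :
    ∫⁻ x, f x ∂μ = ∫⁻ θ : sphere (0 : E) 1, ∫⁻ r : Ioi (0 : ℝ), f (r.1 • θ.1)
      ∂(Measure.volumeIoiPow (Module.finrank ℝ E - 1)) ∂μ.toSphere := by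
  have h0 : ∫⁻ x, f x ∂μ = ∫⁻ x : ({(0 : E)}ᶜ : Set E), f x.1 ∂(μ.comap (↑)) := by
    rw [lintegral_subtype_comap (measurableSet_singleton _).compl, restrict_compl_singleton]
  have h1 := (μ.measurePreserving_homeomorphUnitSphereProd).symm
    ((homeomorphUnitSphereProd E).toMeasurableEquiv)
  have h2 := h1.lintegral_comp_emb ((homeomorphUnitSphereProd E).toMeasurableEquiv.symm.measurableEmbedding)
    (fun x : ({(0 : E)}ᶜ : Set E) => f x.1)
  rw [h0, ← h2, lintegral_prod]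
  · rfl
  · exact ((hf.comp measurable_subtype_coe).comp
      ((homeomorphUnitSphereProd E).toMeasurableEquiv.symm.measurable)).aemeasurable

lemma hom_radial (g : E → ℝ≥0∞) (hg : Measurable g) (hhom : ∀ (c : ℝ) (x : E), 0 < c → g (c • x) = g x)
    (φ : ℝ → ℝ≥0∞) (hφ : Measurable φ) :
    ∫⁻ x, g x * φ ‖x‖ ∂μ = (∫⁻ θ : sphere (0 : E) 1, g θ.1 ∂μ.toSphere) *
      (∫⁻ r : Ioi (0 : ℝ), φ r.1 ∂(Measure.volumeIoiPow (Module.finrank ℝ E - 1))) := by
  rw [polar μ (fun x => g x * φ ‖x‖) (hg.mul (hφ.comp measurable_norm))]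
  have h1 : ∀ θ : sphere (0 : E) 1, ∀ r : Ioi (0 : ℝ), g (r.1 • θ.1) * φ ‖r.1 • θ.1‖ =
      g θ.1 * φ r.1 := by
    intro θ r
    have hr : 0 < r.1 := r.2
    rw [hhom r.1 θ.1 hr, norm_smul, Real.norm_eq_abs, abs_of_pos hr]
    have : ‖θ.1‖ = 1 := by simp
    rw [this, mul_one]
  simp_rw [h1]
  have h2 : ∀ θ : sphere (0 : E) 1, ∫⁻ r : Ioi (0 : ℝ), g θ.1 * φ r.1
      ∂(Measure.volumeIoiPow (Module.finrank ℝ E - 1)) = g θ.1 * ∫⁻ r : Ioi (0 : ℝ), φ r.1
      ∂(Measure.volumeIoiPow (Module.finrank ℝ E - 1)) := by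
    intro θ
    exact lintegral_const_mul _ (hφ.comp measurable_subtype_coe)
  simp_rw [h2]
  have hg' : Measurable (fun θ : sphere (0 : E) 1 => g θ.1) := hg.comp measurable_subtype_coe
  rw [lintegral_mul_const _ hg']

/-- two radial densities give proportional integrals of a homogeneous function of degree zero -/
lemma radial_compare (g : E → ℝ≥0∞) (hg : Measurable g)
    (hhom : ∀ (c : ℝ) (x : E), 0 < c → g (c • x) = g x)
    (φ ψ : ℝ → ℝ≥0∞) (hφ : Measurable φ) (hψ : Measurable ψ) :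
    (∫⁻ x, g x * φ ‖x‖ ∂μ) * (∫⁻ x, ψ ‖x‖ ∂μ) = (∫⁻ x, g x * ψ ‖x‖ ∂μ) * (∫⁻ x, φ ‖x‖ ∂μ) := by
  have h1 := hom_radial μ g hg hhom φ hφ
  have h2 := hom_radial μ g hg hhom ψ hψ
  have h3 := hom_radial μ (fun _ => 1) measurable_const (fun _ _ _ => rfl) φ hφ
  have h4 := hom_radial μ (fun _ => 1) measurable_const (fun _ _ _ => rfl) ψ hψ
  simp only [one_mul] at h3 h4
  rw [h1, h2, h3, h4]
  ring

/-- volume of a star-shaped set, `ρ` is homogeneous of degree zero -/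
lemma star_volume (ρ : E → ℝ) (hρ : Measurable ρ) (hpos : ∀ x, x ≠ 0 → 0 < ρ x)
    (hhom : ∀ (c : ℝ) (x : E), 0 < c → ρ (c • x) = ρ x) :
    μ {x | x ≠ 0 ∧ ‖x‖ < ρ x} = ∫⁻ x in ball (0 : E) 1, ENNReal.ofReal (ρ x ^ (Module.finrank ℝ E)) ∂μ := by
  have hm : MeasurableSet {x : E | x ≠ 0 ∧ ‖x‖ < ρ x} :=
    (measurableSet_singleton (0 : E)).compl.inter (measurableSet_lt measurable_norm hρ)
  have hfin : 0 < Module.finrank ℝ E := Module.finrank_pos
  rw [← lintegral_indicator_one hm, polar μ _ (measurable_one.indicator hm)]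
  have e1 : ∫⁻ x in ball (0 : E) 1, ENNReal.ofReal (ρ x ^ (Module.finrank ℝ E)) ∂μ =
      ∫⁻ x, ENNReal.ofReal (ρ x ^ (Module.finrank ℝ E)) * (Iio (1 : ℝ)).indicator 1 ‖x‖ ∂μ := by
    rw [← lintegral_indicator measurableSet_ball]
    refine lintegral_congr fun x => ?_
    by_cases hx : x ∈ ball (0 : E) 1
    · have hx' : ‖x‖ ∈ Iio (1 : ℝ) := by simpa using hx
      rw [indicator_of_mem hx, indicator_of_mem hx']
      simp
    · have hx' : ‖x‖ ∉ Iio (1 : ℝ) := by simpa using hx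
      rw [indicator_of_notMem hx, indicator_of_notMem hx', mul_zero]
  rw [e1, hom_radial μ _ (by fun_prop) (fun c x hc => by rw [hhom c x hc]) _
    (measurable_one.indicator measurableSet_Iio)]
  have e2 : ∫⁻ r : Ioi (0 : ℝ), (Iio (1 : ℝ)).indicator 1 r.1
      ∂(Measure.volumeIoiPow (Module.finrank ℝ E - 1)) = ENNReal.ofReal (1 / Module.finrank ℝ E) := by
    have : (fun r : Ioi (0 : ℝ) => (Iio (1 : ℝ)).indicator (1 : ℝ → ℝ≥0∞) r.1) =
        (Iio (⟨1, mem_Ioi.2 one_pos⟩ : Ioi (0 : ℝ))).indicator 1 := by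
      funext r
      by_cases hr : r.1 < 1
      · rw [indicator_of_mem (show r.1 ∈ Iio (1 : ℝ) from hr), indicator_of_mem]
        · rfl
        · exact hr
      · rw [indicator_of_notMem (show r.1 ∉ Iio (1 : ℝ) from hr), indicator_of_notMem]
        exact hr
    rw [this, lintegral_indicator_one measurableSet_Iio, Measure.volumeIoiPow_apply_Iio]
    congr 1
    simp only [one_pow]
    rw [Nat.cast_pred hfin]
    ring
  rw [e2, ← lintegral_mul_const _ (by fun_prop)]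
  refine lintegral_congr fun θ => ?_
  have hθ : ‖θ.1‖ = 1 := by simp
  have hθ0 : θ.1 ≠ 0 := by
    intro h; rw [h, norm_zero] at hθ; norm_num at hθ
  have e3 : (fun r : Ioi (0 : ℝ) => {x : E | x ≠ 0 ∧ ‖x‖ < ρ x}.indicator (1 : E → ℝ≥0∞) (r.1 • θ.1)) =
        (Iio (⟨ρ θ.1, hpos _ hθ0⟩ : Ioi (0 : ℝ))).indicator 1 := by
    funext r
    have hr0 : 0 < r.1 := r.2
    have hn : ‖r.1 • θ.1‖ = r.1 := by
      rw [norm_smul, hθ, Real.norm_eq_abs, abs_of_pos hr0, mul_one]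
    by_cases hr : r.1 < ρ θ.1
    · rw [indicator_of_mem, indicator_of_mem]
      · rfl
      · exact hr
      · exact ⟨smul_ne_zero hr0.ne' hθ0, by rw [hn, hhom _ _ hr0]; exact hr⟩
    · rw [indicator_of_notMem, indicator_of_notMem]
      · exact hr
      · rintro ⟨-, h⟩
        rw [hn, hhom _ _ hr0] at h
        exact hr h
  rw [e3, lintegral_indicator_one measurableSet_Iio, Measure.volumeIoiPow_apply_Iio,
    ← ENNReal.ofReal_mul (pow_nonneg (hpos _ hθ0).le _)]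
  congr 1
  simp only
  rw [Nat.sub_add_cancel hfin, Nat.cast_pred hfin]
  ring
end polar

end Pool.Agent.H624R3.AQ
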