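import Mathlib
import Pool.Agent.H624R3.AQ.Polar

set_option autoImplicit false
open MeasureTheory Metric Set ProbabilityTheory
open scoped ENNReal

namespace Pool.Agent.H624R3.AQ

/-- euclidean space -/
abbrev EN (N : ℕ) := EuclideanSpace ℝ (Fin N)

lemma lint_vol : ∀ (N : ℕ) (f : Fin N → ℝ → ℝ≥0∞) (_ : ∀ i, Measurable (f i)),
    ∫⁻ x : Fin N → ℝ, ∏ i, f i (x i) = ∏ i, ∫⁻ t, f i t := by
  intro N
  induction N with
  | zero =>
    intro f _
    simp
    rw [volume_pi, Measure.pi_univ]
    simp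
  | succ N ih =>
    intro f hf
    have mp := volume_preserving_piFinSuccAbove (fun _ : Fin (N + 1) => ℝ) 0
    rw [← (mp.symm _).lintegral_comp_emb (MeasurableEquiv.measurableEmbedding _)]
    have h1 : ∀ p : ℝ × (Fin N → ℝ), ∏ i, f i ((MeasurableEquiv.piFinSuccAbove (fun _ => ℝ) 0).symm p i) =
        f 0 p.1 * ∏ i : Fin N, f i.succ (p.2 i) := by
      intro p
      rw [Fin.prod_univ_succ]
      rfl
    simp_rw [h1]
    have h2 : Measurable (fun x : Fin N → ℝ => ∏ i : Fin N, f i.succ (x i)) :=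
      Finset.measurable_fun_prod _ fun i _ => (hf i.succ).comp (measurable_pi_apply i)
    rw [Measure.volume_eq_prod, lintegral_prod_mul (hf 0).aemeasurable h2.aemeasurable,
      ih _ (fun i => hf i.succ), Fin.prod_univ_succ]

lemma gauss_pi (N : ℕ) : Measure.pi (fun _ : Fin N => gaussianReal 0 1) =
    (volume : Measure (Fin N → ℝ)).withDensity (fun x => ∏ i, gaussianPDF 0 1 (x i)) := by
  classical
  refine Measure.pi_eq fun S hS => ?_
  rw [withDensity_apply _ (MeasurableSet.univ_pi hS), ← lintegral_indicator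
    (MeasurableSet.univ_pi hS)]
  have e : (Set.univ.pi S).indicator (fun u : Fin N → ℝ => ∏ i, gaussianPDF 0 1 (u i)) =
      fun u => ∏ i, (S i).indicator (gaussianPDF 0 1) (u i) := by
    funext u
    by_cases hu : u ∈ Set.univ.pi S
    · rw [Set.indicator_of_mem hu]
      refine Finset.prod_congr rfl fun i _ => ?_
      rw [Set.indicator_of_mem (hu i (Set.mem_univ i))]
    · rw [Set.indicator_of_notMem hu]
      rw [Set.mem_univ_pi] at hu
      push Not at hu
      obtain ⟨i, hi⟩ := hu
      symm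
      refine Finset.prod_eq_zero (Finset.mem_univ i) ?_
      rw [Set.indicator_of_notMem hi]
  rw [e, lint_vol N _ (fun i => (measurable_gaussianPDF 0 1).indicator (hS i))]
  refine Finset.prod_congr rfl fun i _ => ?_
  rw [lintegral_indicator (hS i), gaussianReal_of_var_ne_zero 0 one_ne_zero,
    withDensity_apply _ (hS i)]

/-- the radial profile of the gaussian density -/
noncomputable def phi (N : ℕ) (r : ℝ) : ℝ≥0∞ :=
  ENNReal.ofReal (((Real.sqrt (2 * Real.pi))⁻¹) ^ N * Real.exp (-(r ^ 2) / 2))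

lemma phi_meas (N : ℕ) : Measurable (phi N) := by unfold phi; fun_prop

lemma pdf_prod (N : ℕ) (x : EN N) : ∏ i, gaussianPDF 0 1 (x i) = phi N ‖x‖ := by
  unfold phi gaussianPDF gaussianPDFReal
  rw [← ENNReal.ofReal_prod_of_nonneg (fun i _ => by positivity), Finset.prod_mul_distrib,
    Finset.prod_const, Finset.card_univ, Fintype.card_fin, ← Real.exp_sum]
  congr 3
  · simp
  · rw [EuclideanSpace.norm_sq_eq]
    simp only [Real.norm_eq_abs, sq_abs, NNReal.coe_one, sub_zero, mul_one]
    rw [← Finset.sum_neg_distrib, Finset.sum_div]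

lemma to_EN (N : ℕ) (F : (Fin N → ℝ) → ℝ≥0∞) :
    ∫⁻ x : Fin N → ℝ, F x = ∫⁻ y : EN N, F y.ofLp := by
  have h := (EuclideanSpace.volume_preserving_symm_measurableEquiv_toLp (Fin N)).lintegral_comp_emb
    (MeasurableEquiv.measurableEmbedding _) F
  rw [← h]
  rfl

lemma gauss_lint (N : ℕ) (F : (Fin N → ℝ) → ℝ≥0∞) (hF : Measurable F) :
    ∫⁻ x, F x ∂(Measure.pi (fun _ : Fin N => gaussianReal 0 1)) =
      ∫⁻ y : EN N, F y.ofLp * phi N ‖y‖ := by
  have hm : Measurable (fun x : Fin N → ℝ => ∏ i, gaussianPDF 0 1 (x i)) :=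
    Finset.measurable_fun_prod _ fun i _ => (measurable_gaussianPDF 0 1).comp (measurable_pi_apply i)
  rw [gauss_pi, lintegral_withDensity_eq_lintegral_mul _ hm hF, to_EN]
  refine lintegral_congr fun y => ?_
  rw [Pi.mul_apply, pdf_prod, mul_comm]

/-- the gaussian average of a function of the direction is its average on the ball -/
lemma gauss_ball (N : ℕ) (hN : 1 ≤ N) (F : (Fin N → ℝ) → ℝ≥0∞) (hF : Measurable F)
    (hhom : ∀ (c : ℝ) (x : Fin N → ℝ), 0 < c → F (c • x) = F x) :
    (∫⁻ x, F x ∂(Measure.pi (fun _ : Fin N => gaussianReal 0 1))) *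
      volume (ball (0 : EN N) 1) = ∫⁻ y : EN N in ball 0 1, F y.ofLp := by
  have : Nontrivial (EN N) :=
    Module.nontrivial_of_finrank_pos (R := ℝ) (by rw [finrank_euclideanSpace_fin]; omega)
  have hF' : Measurable (fun y : EN N => F y.ofLp) :=
    hF.comp (MeasurableEquiv.toLp 2 (Fin N → ℝ)).symm.measurable
  have h := radial_compare (volume : Measure (EN N)) (fun y : EN N => F y.ofLp) hF'
    (fun c x hc => by
      show F (c • x).ofLp = F x.ofLp
      rw [WithLp.ofLp_smul, hhom c _ hc]) (phi N) ((Iio (1 : ℝ)).indicator 1) (phi_meas N)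
    (measurable_one.indicator measurableSet_Iio)
  have h1 : ∫⁻ x : EN N, phi N ‖x‖ = 1 := by
    have := gauss_lint N (fun _ => 1) measurable_const
    simp only [one_mul] at this
    rw [← this, lintegral_const, measure_univ, one_mul]
  have key : ∀ (G : EN N → ℝ≥0∞), ∫⁻ x : EN N, G x * (Iio (1 : ℝ)).indicator 1 ‖x‖ =
      ∫⁻ x : EN N in ball 0 1, G x := by
    intro G
    rw [← lintegral_indicator measurableSet_ball]
    refine lintegral_congr fun x => ?_
    by_cases hx : x ∈ ball (0 : EN N) 1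
    · have hx' : ‖x‖ ∈ Iio (1 : ℝ) := by simpa using hx
      rw [indicator_of_mem hx, indicator_of_mem hx']
      simp
    · have hx' : ‖x‖ ∉ Iio (1 : ℝ) := by simpa using hx
      rw [indicator_of_notMem hx, indicator_of_notMem hx', mul_zero]
  have h2 : ∫⁻ x : EN N, (Iio (1 : ℝ)).indicator 1 ‖x‖ = volume (ball (0 : EN N) 1) := by
    have := key (fun _ => 1)
    simp only [one_mul] at this
    rw [this, lintegral_const, one_mul, Measure.restrict_apply_univ]
  rw [h1, mul_one, h2, key, ← gauss_lint N F hF] at h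
  exact h

/-- normalisation -/
noncomputable def nu (N : ℕ) (x : Fin N → ℝ) : Fin N → ℝ :=
  (Real.sqrt (∑ i, x i ^ 2))⁻¹ • x

lemma nu_meas (N : ℕ) : Measurable (nu N) := by
  unfold nu
  fun_prop

lemma nu_hom (N : ℕ) (c : ℝ) (x : Fin N → ℝ) (hc : 0 < c) : nu N (c • x) = nu N x := by
  unfold nu
  have h1 : ∑ i, (c • x) i ^ 2 = c ^ 2 * ∑ i, x i ^ 2 := by
    rw [Finset.mul_sum]
    refine Finset.sum_congr rfl fun i _ => ?_
    simp [mul_pow]
  rw [h1, Real.sqrt_mul (by positivity), Real.sqrt_sq hc.le, smul_smul, mul_inv]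
  congr 1
  field_simp

/-- uniform probability on the euclidean ball, on `Fin N → ℝ` -/
noncomputable def ub (N : ℕ) : Measure (Fin N → ℝ) :=
  (volume (ball (0 : EN N) 1))⁻¹ • (volume.restrict {x : Fin N → ℝ | (WithLp.toLp 2 x : EN N) ∈ ball (0 : EN N) 1})

lemma B_meas (N : ℕ) : MeasurableSet {x : Fin N → ℝ | (WithLp.toLp 2 x : EN N) ∈ ball (0 : EN N) 1} :=
  (MeasurableEquiv.toLp 2 (Fin N → ℝ)).measurable measurableSet_ball

lemma ball_ne_zero (N : ℕ) : volume (ball (0 : EN N) 1) ≠ 0 := (measure_ball_pos _ _ one_pos).ne'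
lemma ball_ne_top (N : ℕ) : volume (ball (0 : EN N) 1) ≠ ⊤ := measure_ball_lt_top.ne

lemma ub_lint (N : ℕ) (F : (Fin N → ℝ) → ℝ≥0∞) (hF : Measurable F) :
    ∫⁻ x, F x ∂(ub N) = (volume (ball (0 : EN N) 1))⁻¹ * ∫⁻ y : EN N in ball 0 1, F y.ofLp := by
  unfold ub
  rw [lintegral_smul_measure, smul_eq_mul]
  congr 1
  rw [← lintegral_indicator (B_meas N), to_EN, ← lintegral_indicator measurableSet_ball]
  refine lintegral_congr fun y => ?_
  by_cases hy : y ∈ ball (0 : EN N) 1
  · rw [indicator_of_mem hy, indicator_of_mem]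
    exact hy
  · rw [indicator_of_notMem hy, indicator_of_notMem]
    exact hy

instance (N : ℕ) : IsProbabilityMeasure (ub N) := by
  refine ⟨?_⟩
  have h := ub_lint N (fun _ => 1) measurable_const
  rw [lintegral_const, one_mul] at h
  rw [h, lintegral_const, one_mul, Measure.restrict_apply_univ,
    ENNReal.inv_mul_cancel (ball_ne_zero N) (ball_ne_top N)]

lemma map_nu (N : ℕ) (hN : 1 ≤ N) : (Measure.pi (fun _ : Fin N => gaussianReal 0 1)).map (nu N) =
    (ub N).map (nu N) := by
  refine Measure.ext fun s hs => ?_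
  rw [Measure.map_apply (nu_meas N) hs, Measure.map_apply (nu_meas N) hs]
  have hm : MeasurableSet ((nu N) ⁻¹' s) := nu_meas N hs
  rw [← lintegral_indicator_one hm, ← lintegral_indicator_one hm,
    ub_lint N _ (measurable_one.indicator hm)]
  have h := gauss_ball N hN (((nu N) ⁻¹' s).indicator 1) (measurable_one.indicator hm)
    (fun c x hc => by
      by_cases hx : x ∈ (nu N) ⁻¹' s
      · rw [indicator_of_mem hx, indicator_of_mem]
        · rfl
        · rw [mem_preimage, nu_hom N c x hc]; exact hx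
      · rw [indicator_of_notMem hx, indicator_of_notMem]
        rw [mem_preimage, nu_hom N c x hc]; exact hx)
  rw [← h, mul_comm, mul_assoc, ENNReal.mul_inv_cancel (ball_ne_zero N) (ball_ne_top N), mul_one]

/-- transfer of the average from gaussian rows to rows uniform in the ball -/
lemma transfer (N k : ℕ) (hN : 1 ≤ N) (F : (Fin k → Fin N → ℝ) → ℝ≥0∞) (hF : Measurable F)
    (hhom : ∀ (c : Fin k → ℝ) (A : Fin k → Fin N → ℝ), (∀ j, 0 < c j) →
      F (fun j => c j • A j) = F A) :
    ∫⁻ A, F A ∂(Measure.pi (fun _ : Fin k => Measure.pi (fun _ : Fin N => gaussianReal 0 1))) =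
    ∫⁻ A, F A ∂(Measure.pi (fun _ : Fin k => ub N)) := by
  have hinv : ∀ A : Fin k → Fin N → ℝ, F A = F (fun j => nu N (A j)) := by
    intro A
    rw [← hhom (fun j => if A j = 0 then 1 else (Real.sqrt (∑ i, A j i ^ 2))⁻¹) A ?_]
    · congr 1
      funext j
      by_cases hj : A j = 0
      · simp [hj, nu]
      · simp [hj, nu]
    · intro j
      by_cases hj : A j = 0
      · simp [hj]
      · simp only [hj, if_false]
        rw [inv_pos, Real.sqrt_pos]
        rcases Finset.sum_nonneg (fun i (_ : i ∈ Finset.univ) => sq_nonneg (A j i)) |>.lt_or_eq with h | h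
        · exact h
        · exfalso
          apply hj
          funext i
          have := (Finset.sum_eq_zero_iff_of_nonneg (fun i _ => sq_nonneg (A j i))).1 h.symm i
            (Finset.mem_univ i)
          simpa using this
  have hmeas : Measurable (fun (A : Fin k → Fin N → ℝ) j => nu N (A j)) := by
    refine measurable_pi_lambda _ fun j => (nu_meas N).comp (measurable_pi_apply j)
  have h1 : ∀ (μ : Measure (Fin N → ℝ)) [IsProbabilityMeasure μ],
      ∫⁻ A, F A ∂(Measure.pi (fun _ : Fin k => μ)) = ∫⁻ A, F A ∂(Measure.pi (fun _ : Fin k => μ.map (nu N))) := by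
    intro μ _
    have hp : IsProbabilityMeasure (μ.map (nu N)) := Measure.isProbabilityMeasure_map (nu_meas N).aemeasurable
    rw [← Measure.pi_map_pi (μ := fun _ : Fin k => μ) (f := fun _ => nu N)
      (fun _ => (nu_meas N).aemeasurable), lintegral_map hF hmeas]
    exact lintegral_congr fun A => hinv A
  rw [h1, h1 (ub N), map_nu N hN]

end Pool.Agent.H624R3.AQ
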