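import Mathlib
import Pool.Agent.H624R3.AQ.Gauss
import Pool.Agent.Results.MP_ed9c69_gt.CrossPolytope

set_option autoImplicit false
open MeasureTheory Metric Set ProbabilityTheory
open scoped ENNReal RealInnerProductSpace
open Pool.Agent.Results.MP_ed9c69_gt.CrossPolytope

namespace Pool.Agent.H624R3.AQ

/-- the integrand of the frozen statement -/
noncomputable def fr (k N : ℕ) (K : Set (Fin N → ℝ)) (A : Fin k → Fin N → ℝ) : ℝ :=
  ((volume ((fun x : Fin N → ℝ => (Matrix.of A).mulVec x) '' K)).toReal /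
    Real.sqrt ((Matrix.of A * (Matrix.of A).transpose).det)) ^ (-(N : ℝ))

/-- the cross-polytope -/
def C (N : ℕ) : Set (Fin N → ℝ) := {x | ∑ i, |x i| ≤ 1}

lemma image_C (k N : ℕ) (A : Fin k → Fin N → ℝ) :
    (fun x : Fin N → ℝ => (Matrix.of A).mulVec x) '' (C N) = hull 1 (fun i j => A j i) := by
  ext y
  constructor
  · rintro ⟨x, hx, rfl⟩
    refine ⟨x, hx, ?_⟩
    ext j
    simp [Matrix.mulVec, dotProduct, mul_comm]
  · rintro ⟨x, hx, rfl⟩
    refine ⟨x, hx, ?_⟩
    ext j
    simp [Matrix.mulVec, dotProduct, mul_comm]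

lemma vol_meas (k N : ℕ) : Measurable (fun A : Fin k → Fin N → ℝ =>
    volume ((fun x : Fin N → ℝ => (Matrix.of A).mulVec x) '' (C N))) := by
  simp_rw [image_C]
  have h1 : Measurable (fun A : Fin k → Fin N → ℝ => (fun (i : Fin N) (j : Fin k) => A j i)) := by
    refine measurable_pi_lambda _ fun i => measurable_pi_lambda _ fun j => ?_
    exact (measurable_pi_apply i).comp (measurable_pi_apply j)
  exact (measurable_vol_hull (J := Fin N) (n := k) 1).comp h1

lemma det_meas (k N : ℕ) : Measurable (fun A : Fin k → Fin N → ℝ =>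
    Real.sqrt ((Matrix.of A * (Matrix.of A).transpose).det)) := by
  have hc : Continuous (fun A : Fin k → Fin N → ℝ =>
    Real.sqrt ((Matrix.of A * (Matrix.of A).transpose).det)) := by
    apply Real.continuous_sqrt.comp
    apply Continuous.matrix_det
    apply Continuous.matrix_mul
    · exact continuous_id
    · exact Continuous.matrix_transpose continuous_id
  exact hc.measurable

lemma fr_meas (k N : ℕ) : Measurable (fr k N (C N)) := by
  unfold fr
  exact (((vol_meas k N).ennreal_toReal).div (det_meas k N)).pow_const _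

lemma fr_nonneg (k N : ℕ) (K : Set (Fin N → ℝ)) (A : Fin k → Fin N → ℝ) : 0 ≤ fr k N K A :=
  Real.rpow_nonneg (div_nonneg ENNReal.toReal_nonneg (Real.sqrt_nonneg _)) _

lemma fr_hom (k N : ℕ) (K : Set (Fin N → ℝ)) (c : Fin k → ℝ) (A : Fin k → Fin N → ℝ)
    (hc : ∀ j, 0 < c j) : fr k N K (fun j => c j • A j) = fr k N K A := by
  have e1 : Matrix.of (fun j => c j • A j) = Matrix.diagonal c * Matrix.of A := by
    ext i j
    simp [Matrix.diagonal_mul]
  have hprod : 0 < ∏ j, c j := Finset.prod_pos fun j _ => hc j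
  have e2 : volume ((fun x : Fin N → ℝ => (Matrix.of (fun j => c j • A j)).mulVec x) '' K) =
      ENNReal.ofReal (∏ j, c j) * volume ((fun x : Fin N → ℝ => (Matrix.of A).mulVec x) '' K) := by
    have h1 := Measure.addHaar_image_linearMap (volume : Measure (Fin k → ℝ))
      (Matrix.toLin' (Matrix.diagonal c)) ((fun x : Fin N → ℝ => (Matrix.of A).mulVec x) '' K)
    rw [LinearMap.det_toLin', Matrix.det_diagonal, abs_of_pos hprod, Set.image_image] at h1
    rw [← h1, e1]
    congr 1
    refine Set.image_congr fun x _ => ?_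
    rw [Matrix.toLin'_apply, Matrix.mulVec_mulVec]
  have e3 : Real.sqrt ((Matrix.of (fun j => c j • A j) * (Matrix.of (fun j => c j • A j)).transpose).det)
      = (∏ j, c j) * Real.sqrt ((Matrix.of A * (Matrix.of A).transpose).det) := by
    rw [e1, Matrix.transpose_mul, Matrix.diagonal_transpose, Matrix.mul_assoc,
      ← Matrix.mul_assoc (Matrix.of A), Matrix.det_mul, Matrix.det_mul, Matrix.det_diagonal]
    have : (∏ i, c i) * ((Matrix.of A * (Matrix.of A).transpose).det * ∏ i, c i) =
      (∏ i, c i) ^ 2 * (Matrix.of A * (Matrix.of A).transpose).det := by ring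
    rw [this, Real.sqrt_mul (by positivity), Real.sqrt_sq hprod.le]
  unfold fr
  rw [e2, e3, ENNReal.toReal_mul, ENNReal.toReal_ofReal hprod.le, mul_div_mul_left _ _ hprod.ne']

/-- projection formula with the Gram matrix -/
lemma proj_gram {N n : ℕ} (v : Fin n → E N) (hv : LinearIndependent ℝ v) :
    ∃ M : Matrix (Fin n) (Fin n) ℝ, M.det ≠ 0 ∧
      M * M.transpose = Matrix.of (fun i j => ⟪v i, v j⟫) ∧
      ∀ K : Set (E N), volume ((fun x j => ⟪v j, x⟫) '' K : Set (Fin n → ℝ)) =
        ENNReal.ofReal |M.det| * projVol K v := by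
  set F := Submodule.span ℝ (Set.range v) with hF
  have hmem : ∀ j, v j ∈ F := fun j => Submodule.subset_span ⟨j, rfl⟩
  let vF : Fin n → F := fun j => ⟨v j, hmem j⟩
  have hfin : Module.finrank ℝ F = Fintype.card (Fin n) := finrank_span_eq_card hv
  let b : OrthonormalBasis (Fin n) ℝ F := InnerProductSpace.gramSchmidtOrthonormalBasis hfin vF
  set M : Matrix (Fin n) (Fin n) ℝ := Matrix.of fun j k => ⟪v j, (b k : E N)⟫ with hM
  refine ⟨M, ?_, ?_, ?_⟩
  · intro h0
    obtain ⟨c, hc, hcM⟩ := Matrix.exists_vecMul_eq_zero_iff.2 h0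
    have hwmem : ∑ j, c j • v j ∈ F := Submodule.sum_mem _ fun j _ => F.smul_mem _ (hmem j)
    have h1 : (⟨∑ j, c j • v j, hwmem⟩ : F) = 0 := by
      refine b.toBasis.ext_elem fun k => ?_
      rw [OrthonormalBasis.coe_toBasis_repr_apply, OrthonormalBasis.repr_apply_apply,
        OrthonormalBasis.coe_toBasis_repr_apply, OrthonormalBasis.repr_apply_apply,
        inner_zero_right]
      have h5 : ⟪b k, (⟨∑ j, c j • v j, hwmem⟩ : F)⟫ = ⟪(b k : E N), ∑ j, c j • v j⟫ := rfl
      rw [h5, inner_sum]
      have h6 := congrFun hcM k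
      simp only [Matrix.vecMul, dotProduct, Pi.zero_apply] at h6
      rw [← h6]
      refine Finset.sum_congr rfl fun j _ => ?_
      rw [real_inner_smul_right, real_inner_comm]
      rfl
    have h2 : ∑ j, c j • v j = 0 := congrArg (Subtype.val : F → E N) h1
    apply hc
    funext j
    exact (Fintype.linearIndependent_iff.1 hv) c h2 j
  · ext i j
    simp only [Matrix.mul_apply, Matrix.transpose_apply, hM, Matrix.of_apply]
    have h3 := b.sum_inner_mul_inner (vF i) (vF j)
    rw [show ⟪v i, v j⟫ = ⟪vF i, vF j⟫ from rfl, ← h3]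
    refine Finset.sum_congr rfl fun k _ => ?_
    congr 1
    rw [real_inner_comm]
    rfl
  · intro K
    let e : F ≃ᵐ (Fin n → ℝ) := b.measurableEquiv.trans (MeasurableEquiv.toLp 2 (Fin n → ℝ)).symm
    have he : MeasurePreserving e volume volume :=
      b.measurePreserving_measurableEquiv.trans
        (EuclideanSpace.volume_preserving_symm_measurableEquiv_toLp (Fin n))
    have h1 : ((fun x j => ⟪v j, x⟫) '' K : Set (Fin n → ℝ)) =
        (Matrix.toLin' M) '' (e '' (F.orthogonalProjectionOnto '' K)) := by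
      rw [Set.image_image, Set.image_image]
      refine Set.image_congr fun x _ => ?_
      ext j
      rw [Matrix.toLin'_apply]
      simp only [Matrix.mulVec, dotProduct]
      have h2 : ∀ k, e (F.orthogonalProjectionOnto x) k = ⟪(b k : E N), x⟫ := by
        intro k
        have : e (F.orthogonalProjectionOnto x) k = b.repr (F.orthogonalProjectionOnto x) k := rfl
        rw [this, OrthonormalBasis.repr_apply_apply]
        exact Submodule.inner_orthogonalProjectionOnto_eq_of_mem_left _ _
      simp_rw [h2]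
      have h3 := b.sum_inner_mul_inner (vF j) (F.orthogonalProjectionOnto x)
      rw [Submodule.inner_orthogonalProjectionOnto_eq_of_mem_left] at h3
      rw [show ⟪v j, x⟫ = ⟪(vF j : E N), x⟫ from rfl, ← h3]
      refine Finset.sum_congr rfl fun k _ => ?_
      rw [Submodule.inner_orthogonalProjectionOnto_eq_of_mem_left]
      rfl
    unfold projVol shadowVol shadow
    rw [h1, Measure.addHaar_image_linearMap, LinearMap.det_toLin']
    congr 1
    rw [MeasurableEquiv.image_eq_preimage_symm]
    exact (he.symm e).measure_preimage_equiv _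

lemma image_cross {k N : ℕ} (v : Fin k → E N) :
    ((fun x j => ⟪v j, x⟫) '' (cross N 1) : Set (Fin k → ℝ)) =
      (fun x : Fin N → ℝ => (Matrix.of (fun j => (v j).ofLp)).mulVec x) '' (C N) := by
  ext y
  constructor
  · rintro ⟨x, hx, rfl⟩
    refine ⟨x.ofLp, hx, ?_⟩
    ext j
    simp only [Matrix.mulVec, dotProduct, Matrix.of_apply]
    rw [PiLp.inner_apply]
    simp [mul_comm]
  · rintro ⟨x, hx, rfl⟩
    refine ⟨WithLp.toLp 2 x, hx, ?_⟩
    ext j
    simp only [Matrix.mulVec, dotProduct, Matrix.of_apply]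
    rw [PiLp.inner_apply]
    simp [mul_comm]

lemma gram_eq {k N : ℕ} (v : Fin k → E N) :
    Matrix.of (fun j => (v j).ofLp) * (Matrix.of (fun j => (v j).ofLp)).transpose =
      Matrix.of (fun i j => ⟪v i, v j⟫) := by
  ext i j
  simp only [Matrix.mul_apply, Matrix.of_apply, Matrix.transpose_apply]
  rw [PiLp.inner_apply]
  simp [mul_comm]

lemma fr_eq {k N : ℕ} (v : Fin k → E N) (hv : LinearIndependent ℝ v) :
    fr k N (C N) (fun j => (v j).ofLp) = (projVol (cross N 1) v).toReal ^ (-(N : ℝ)) := by
  obtain ⟨M, hM0, hMM, hvol⟩ := proj_gram v hv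
  unfold fr
  rw [← image_cross, gram_eq, ← hMM, hvol, Matrix.det_mul, Matrix.det_transpose,
    Real.sqrt_mul_self_eq_abs, ENNReal.toReal_mul, ENNReal.toReal_ofReal (abs_nonneg _),
    mul_div_cancel_left₀ _ (abs_pos.2 hM0).ne']

lemma fr_le {k N : ℕ} (hN : 1 ≤ N) (v : Fin k → E N) (hv : LinearIndependent ℝ v) :
    ENNReal.ofReal (fr k N (C N) (fun j => (v j).ofLp)) ≤ (projVol (cross N 1) v) ^ (-(N : ℝ)) := by
  have hN0 : (N : ℝ) ≠ 0 := by positivity
  rw [fr_eq v hv]
  set x := projVol (cross N 1) v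
  by_cases hx0 : x = 0
  · rw [hx0, ENNReal.toReal_zero, Real.zero_rpow (neg_ne_zero.2 hN0), ENNReal.ofReal_zero]
    exact zero_le
  by_cases hxt : x = ⊤
  · rw [hxt, ENNReal.toReal_top, Real.zero_rpow (neg_ne_zero.2 hN0), ENNReal.ofReal_zero]
    exact zero_le
  rw [← ENNReal.ofReal_rpow_of_pos (ENNReal.toReal_pos hx0 hxt), ENNReal.ofReal_toReal hxt]

lemma fr_pos {k N : ℕ} (hk : 1 ≤ k) (v : Fin k → E N) (hv : LinearIndependent ℝ v) :
    0 < fr k N (C N) (fun j => (v j).ofLp) := by
  obtain ⟨M, hM0, hMM, hvol⟩ := proj_gram v hv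
  unfold fr
  apply Real.rpow_pos_of_pos
  apply div_pos
  · apply ENNReal.toReal_pos
    · rw [image_C]
      obtain ⟨S, hS⟩ := exists_minor (fun i j => v j i) v (fun _ _ => rfl) hv
      let τ : JJ k → Fin N := Sum.elim S (fun _ => S ⟨0, hk⟩)
      have h1 := vol_hull_ge (fun i j => v j i) S τ (fun _ => rfl)
      have h2 : hull 1 (fun j => (fun (i : Fin N) (j : Fin k) => v j i) (τ j)) ⊆
          hull 1 (fun (i : Fin N) (j : Fin k) => v j i) := by
        classical
        rintro _ ⟨c, hc, rfl⟩
        refine ⟨fun i => ∑ j, if τ j = i then c j else 0, ?_, ?_⟩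
        · calc ∑ i, |∑ j, if τ j = i then c j else 0|
              ≤ ∑ i, ∑ j, |if τ j = i then c j else 0| :=
                Finset.sum_le_sum fun i _ => Finset.abs_sum_le_sum_abs _ _
            _ = ∑ j, |c j| := by
                rw [Finset.sum_comm]
                refine Finset.sum_congr rfl fun j _ => ?_
                rw [Finset.sum_eq_single (τ j)]
                · simp
                · intro i _ hi
                  simp [Ne.symm hi]
                · intro h; exact absurd (Finset.mem_univ _) h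
            _ ≤ 1 := hc
        · simp_rw [Finset.sum_smul]
          rw [Finset.sum_comm]
          refine Finset.sum_congr rfl fun j _ => ?_
          rw [Finset.sum_eq_single (τ j)]
          · simp
          · intro i _ hi
            simp [Ne.symm hi]
          · intro h; exact absurd (Finset.mem_univ _) h
      have h3 : 0 < ENNReal.ofReal |dt (fun i j => v j i) S| * Pool.Agent.Results.MP_ed9c69_gt.CrossPolytope.beta k :=
        ENNReal.mul_pos (ENNReal.ofReal_pos.2 (abs_pos.2 hS)).ne' (beta_pos k)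
      exact (lt_of_lt_of_le h3 (h1.trans (measure_mono h2))).ne'
    · rw [image_C]
      have : IsCompact (hull 1 (fun (i : Fin N) (j : Fin k) => (v j).ofLp i)) := by
        have : hull 1 (fun (i : Fin N) (j : Fin k) => (v j).ofLp i) =
          (fun c : Fin N → ℝ => ∑ i, c i • (fun (j : Fin k) => (v j).ofLp i)) '' {c | ∑ j, |c j| ≤ 1} := by
          ext y
          constructor
          · rintro ⟨c, hc, rfl⟩; exact ⟨c, hc, rfl⟩
          · rintro ⟨c, hc, rfl⟩; exact ⟨c, hc, rfl⟩
        rw [this]
        exact (compact_weights 1).image (by fun_prop)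
      exact this.measure_lt_top.ne
  · rw [gram_eq, ← hMM, Matrix.det_mul, Matrix.det_transpose, Real.sqrt_mul_self_eq_abs]
    exact abs_pos.2 hM0

end Pool.Agent.H624R3.AQ
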