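import Mathlib
import Pool.Agent.H624R3.AQ.Fun

set_option autoImplicit false
open MeasureTheory Metric Set ProbabilityTheory
open scoped ENNReal RealInnerProductSpace
open Pool.Agent.Results.MP_ed9c69_gt.CrossPolytope

namespace Pool.Agent.H624R3.AQ

lemma pi_ub (N k : ℕ) : Measure.pi (fun _ : Fin k => ub N) =
    ((volume (ball (0 : EN N) 1))⁻¹) ^ k • ((volume : Measure (Fin k → Fin N → ℝ)).restrict
      (Set.univ.pi fun _ => {x : Fin N → ℝ | (WithLp.toLp 2 x : EN N) ∈ ball (0 : EN N) 1})) := by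
  refine Measure.pi_eq fun s hs => ?_
  rw [Measure.smul_apply, Measure.restrict_apply (MeasurableSet.univ_pi hs), ← Set.pi_inter_distrib,
    volume_pi_pi, smul_eq_mul]
  have h1 : ((volume (ball (0 : EN N) 1))⁻¹) ^ k = ∏ _i : Fin k, (volume (ball (0 : EN N) 1))⁻¹ := by
    rw [Finset.prod_const, Finset.card_univ, Fintype.card_fin]
  rw [h1, ← Finset.prod_mul_distrib]
  refine Finset.prod_congr rfl fun i _ => ?_
  unfold ub
  rw [Measure.smul_apply, Measure.restrict_apply (hs i), smul_eq_mul]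

lemma pi_ub_lint (N k : ℕ) (F : (Fin k → Fin N → ℝ) → ℝ≥0∞) :
    ∫⁻ A, F A ∂(Measure.pi (fun _ : Fin k => ub N)) =
      (∫⁻ v in Balls N k, F (fun j => (v j).ofLp)) / volume (Balls N k) := by
  rw [pi_ub, lintegral_smul_measure, smul_eq_mul, volume_Balls, ENNReal.div_eq_inv_mul,
    ENNReal.inv_pow]
  congr 1
  rw [← lintegral_indicator (MeasurableSet.univ_pi fun _ => B_meas N),
    ← lintegral_indicator (measurableSet_Balls N k)]
  have hp : MeasurePreserving (fun (v : Fin k → E N) (j : Fin k) =>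
      (MeasurableEquiv.toLp 2 (Fin N → ℝ)).symm (v j)) volume volume :=
    volume_preserving_pi fun _ => EuclideanSpace.volume_preserving_symm_measurableEquiv_toLp (Fin N)
  have m3 := hp.lintegral_comp_emb
    ((MeasurableEquiv.piCongrRight fun _ : Fin k =>
      (MeasurableEquiv.toLp 2 (Fin N → ℝ)).symm).measurableEmbedding)
    ((Set.univ.pi fun _ => {x : Fin N → ℝ | (WithLp.toLp 2 x : EN N) ∈ ball (0 : EN N) 1}).indicator F)
  rw [← m3]
  refine lintegral_congr fun v => ?_
  by_cases hv : v ∈ Balls N k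
  · rw [indicator_of_mem hv, indicator_of_mem]
    · rfl
    · intro j _
      exact hv j (mem_univ _)
  · rw [indicator_of_notMem hv, indicator_of_notMem]
    intro h
    apply hv
    intro j _
    exact h j (mem_univ _)

/-- the gaussian average -/
noncomputable def GI (k N : ℕ) : ℝ≥0∞ :=
  ∫⁻ A, ENNReal.ofReal (fr k N (C N) A)
    ∂(Measure.pi (fun _ : Fin k => Measure.pi (fun _ : Fin N => gaussianReal 0 1)))

lemma GI_eq (k N : ℕ) (hN : 1 ≤ N) : GI k N =
    (∫⁻ v in Balls N k, ENNReal.ofReal (fr k N (C N) (fun j => (v j).ofLp))) / volume (Balls N k) := by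
  unfold GI
  rw [transfer N k hN _ (fr_meas k N).ennreal_ofReal (fun c A hc => by rw [fr_hom k N _ c A hc]),
    pi_ub_lint]

lemma GI_le (k N : ℕ) (hN : 1 ≤ N) (hkN : k ≤ N) : GI k N ≤
    (∫⁻ v in Balls N k, (projVol (cross N 1) v) ^ (-(N : ℝ))) / volume (Balls N k) := by
  rw [GI_eq k N hN]
  refine ENNReal.div_le_div_right ?_ _
  refine lintegral_mono_ae ?_
  filter_upwards [ae_restrict_of_ae (ae_indep hkN)] with v hv
  exact fr_le hN v hv

lemma GI_pos (k N : ℕ) (hk : 1 ≤ k) (hkN : k ≤ N) : GI k N ≠ 0 := by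
  rw [GI_eq k N (hk.trans hkN)]
  rw [Ne, ENNReal.div_eq_zero_iff, not_or]
  constructor
  · have hm : Measurable (fun v : Fin k → E N => ENNReal.ofReal (fr k N (C N) (fun j => (v j).ofLp))) := by
      have h1 : Measurable (fun (v : Fin k → E N) (j : Fin k) => (v j).ofLp) := by
        refine measurable_pi_lambda _ fun j => ?_
        exact (MeasurableEquiv.toLp 2 (Fin N → ℝ)).symm.measurable.comp (measurable_pi_apply j)
      exact ((fr_meas k N).comp h1).ennreal_ofReal
    rw [lintegral_eq_zero_iff hm]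
    intro h
    have h2 := h.and (ae_restrict_of_ae (ae_indep hkN))
    have h3 : ∀ᵐ v : Fin k → E N ∂(volume.restrict (Balls N k)), False := by
      filter_upwards [h2] with v hv
      have := fr_pos hk v hv.2
      have h4 : ENNReal.ofReal (fr k N (C N) (fun j => (v j).ofLp)) = 0 := hv.1
      rw [ENNReal.ofReal_eq_zero] at h4
      linarith
    rw [Filter.eventually_false_iff_eq_bot, ae_eq_bot, Measure.restrict_eq_zero, volume_Balls] at h3
    exact pow_ne_zero _ (ball_ne_zero N) h3
  · rw [volume_Balls]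
    exact ENNReal.pow_ne_top (ball_ne_top N)

/-- one-dimensional projections -/
lemma fr_one (N : ℕ) (A : Fin 1 → Fin N → ℝ) :
    fr 1 N (C N) A = (2 * ‖A 0‖ / Real.sqrt (∑ i, A 0 i ^ 2)) ^ (-(N : ℝ)) := by
  classical
  unfold fr
  have h1 : (Matrix.of A * (Matrix.of A).transpose).det = ∑ i, A 0 i ^ 2 := by
    rw [Matrix.det_fin_one]
    simp [Matrix.mul_apply, sq]
  have h2 : (fun x : Fin N → ℝ => (Matrix.of A).mulVec x) '' (C N) =
      closedBall (0 : Fin 1 → ℝ) ‖A 0‖ := by
    ext y
    rw [mem_closedBall_zero_iff]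
    constructor
    · rintro ⟨x, hx, rfl⟩
      have hx' : ∑ i, |x i| ≤ 1 := hx
      rw [pi_norm_le_iff_of_nonneg (norm_nonneg _)]
      intro j
      have hj : j = 0 := Subsingleton.elim _ _
      subst hj
      simp only [Matrix.mulVec, dotProduct, Matrix.of_apply, Real.norm_eq_abs]
      calc |∑ i, A 0 i * x i| ≤ ∑ i, |A 0 i * x i| := Finset.abs_sum_le_sum_abs _ _
        _ ≤ ∑ i, ‖A 0‖ * |x i| := by
            refine Finset.sum_le_sum fun i _ => ?_
            rw [abs_mul]
            refine mul_le_mul_of_nonneg_right ?_ (abs_nonneg _)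
            exact norm_le_pi_norm (A 0) i
        _ = ‖A 0‖ * ∑ i, |x i| := by rw [Finset.mul_sum]
        _ ≤ ‖A 0‖ := by
            have := mul_le_mul_of_nonneg_left hx' (norm_nonneg (A 0))
            linarith
    · intro hy
      by_cases hA : A 0 = 0
      · rw [hA, norm_zero] at hy
        have hy0 : y = 0 := by simpa using hy
        refine ⟨0, by simp [C], ?_⟩
        rw [hy0]
        simp
      · obtain ⟨i0, hi0⟩ : ∃ i, ‖A 0‖ = ‖A 0 i‖ := by
          have hne : Nonempty (Fin N) := by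
            by_contra hcon
            rw [not_nonempty_iff] at hcon
            exact hA (Subsingleton.elim _ _)
          obtain ⟨i, -, hi⟩ := Finset.exists_max_image Finset.univ (fun i => ‖A 0 i‖)
            Finset.univ_nonempty
          refine ⟨i, le_antisymm ?_ (norm_le_pi_norm _ _)⟩
          rw [pi_norm_le_iff_of_nonneg (norm_nonneg _)]
          intro j
          exact hi j (Finset.mem_univ _)
        have hne : A 0 i0 ≠ 0 := by
          intro h0
          rw [h0, norm_zero, norm_eq_zero] at hi0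
          exact hA hi0
        refine ⟨Pi.single i0 (y 0 / A 0 i0), ?_, ?_⟩
        · show ∑ i, |(Pi.single i0 (y 0 / A 0 i0) : Fin N → ℝ) i| ≤ 1
          rw [Finset.sum_eq_single i0]
          · rw [Pi.single_eq_same, abs_div, div_le_one (abs_pos.2 hne)]
            have := (norm_le_pi_norm y 0).trans hy
            rw [hi0] at this
            exact this
          · intro j _ hj
            rw [Pi.single_eq_of_ne hj]
            simp
          · intro h; exact absurd (Finset.mem_univ _) h
        · ext j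
          have hj : j = 0 := Subsingleton.elim _ _
          subst hj
          simp only [Matrix.mulVec_single, MulOpposite.op_div]
          simp
          field_simp
  rw [h1, h2, Real.volume_pi_closedBall _ (norm_nonneg _), Fintype.card_fin, pow_one,
    ENNReal.toReal_ofReal (by positivity)]

lemma GI_one (N : ℕ) (hN : 1 ≤ N) : GI 1 N = (volume (ball (0 : EN N) 1))⁻¹ := by
  have : Nontrivial (EN N) :=
    Module.nontrivial_of_finrank_pos (R := ℝ) (by rw [finrank_euclideanSpace_fin]; omega)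
  have hN0 : (N : ℝ) ≠ 0 := by positivity
  set g : (Fin N → ℝ) → ℝ≥0∞ := fun a =>
    ENNReal.ofReal ((2 * ‖a‖ / Real.sqrt (∑ i, a i ^ 2)) ^ (-(N : ℝ))) with hg
  have hgm : Measurable g := by
    rw [hg]
    fun_prop
  have h1 : GI 1 N = ∫⁻ a, g a ∂(Measure.pi (fun _ : Fin N => gaussianReal 0 1)) := by
    unfold GI
    simp_rw [fr_one]
    exact (measurePreserving_eval (fun _ : Fin 1 => Measure.pi (fun _ : Fin N => gaussianReal 0 1)) 0).lintegral_comp hgm
  have hhom : ∀ (c : ℝ) (x : Fin N → ℝ), 0 < c → g (c • x) = g x := by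
    intro c x hc
    rw [hg]
    simp only
    have e1 : ∑ i, (c • x) i ^ 2 = c ^ 2 * ∑ i, x i ^ 2 := by
      rw [Finset.mul_sum]
      refine Finset.sum_congr rfl fun i _ => ?_
      simp [mul_pow]
    rw [e1, Real.sqrt_mul (by positivity), Real.sqrt_sq hc.le, norm_smul, Real.norm_eq_abs,
      abs_of_pos hc]
    congr 2
    rw [mul_left_comm, mul_div_mul_left _ _ hc.ne']
  have h2 := gauss_ball N hN g hgm hhom
  -- the integral over the ball
  let ρ : EN N → ℝ := fun y => ‖y‖ / (2 * ‖y.ofLp‖)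
  have hof : Measurable (fun y : EN N => y.ofLp) := (MeasurableEquiv.toLp 2 (Fin N → ℝ)).symm.measurable
  have hρm : Measurable ρ := by
    exact measurable_norm.div ((measurable_norm.comp hof).const_mul 2)
  have hpos : ∀ x : EN N, x ≠ 0 → 0 < ρ x := by
    intro x hx
    have hx' : x.ofLp ≠ 0 := by
      intro h
      apply hx
      ext i
      exact congrFun h i
    exact div_pos (norm_pos_iff.2 hx) (by have := norm_pos_iff.2 hx'; positivity)
  have hρhom : ∀ (c : ℝ) (x : EN N), 0 < c → ρ (c • x) = ρ x := by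
    intro c x hc
    show ‖c • x‖ / (2 * ‖(c • x).ofLp‖) = ‖x‖ / (2 * ‖x.ofLp‖)
    rw [WithLp.ofLp_smul, norm_smul, norm_smul, Real.norm_eq_abs, abs_of_pos hc,
      mul_left_comm, mul_div_mul_left _ _ hc.ne']
  have h3 := star_volume (volume : Measure (EN N)) ρ hρm hpos hρhom
  rw [finrank_euclideanSpace_fin] at h3
  have h4 : ∀ y : EN N, g y.ofLp = ENNReal.ofReal (ρ y ^ N) := by
    intro y
    rw [hg]
    simp only
    have e2 : Real.sqrt (∑ i, y.ofLp i ^ 2) = ‖y‖ := by
      rw [EuclideanSpace.norm_eq]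
      simp
    rw [e2, Real.rpow_neg (by positivity), Real.rpow_natCast, ← inv_pow, inv_div]
  have h5 : volume {x : EN N | x ≠ 0 ∧ ‖x‖ < ρ x} = 1 := by
    have e3 : {x : EN N | x ≠ 0 ∧ ‖x‖ < ρ x} =
        (MeasurableEquiv.toLp 2 (Fin N → ℝ)).symm ⁻¹' (ball (0 : Fin N → ℝ) (1 / 2) \ {0}) := by
      ext x
      simp only [mem_ofPred_eq, mem_preimage, mem_sdiff, mem_ball_zero_iff, mem_singleton_iff]
      have e4 : (MeasurableEquiv.toLp 2 (Fin N → ℝ)).symm x = x.ofLp := rfl
      rw [e4]
      have e5 : x = 0 ↔ x.ofLp = 0 := by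
        constructor
        · intro h; rw [h]; rfl
        · intro h; ext i; exact congrFun h i
      rw [← e5]
      constructor
      · rintro ⟨h, h'⟩
        refine ⟨?_, h⟩
        have hx1 : 0 < ‖x‖ := norm_pos_iff.2 h
        have hx2 : 0 < ‖x.ofLp‖ := norm_pos_iff.2 (fun hh => h (e5.2 hh))
        have h6 : ‖x‖ < ‖x‖ / (2 * ‖x.ofLp‖) := h'
        rw [lt_div_iff₀ (by positivity)] at h6
        have h7 : ‖x‖ * (2 * ‖x.ofLp‖) < ‖x‖ * 1 := by rw [mul_one]; exact h6
        have := lt_of_mul_lt_mul_left h7 hx1.le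
        linarith
      · rintro ⟨h', h⟩
        refine ⟨h, ?_⟩
        have hx1 : 0 < ‖x‖ := norm_pos_iff.2 h
        have hx2 : 0 < ‖x.ofLp‖ := norm_pos_iff.2 (fun hh => h (e5.2 hh))
        show ‖x‖ < ‖x‖ / (2 * ‖x.ofLp‖)
        rw [lt_div_iff₀ (by positivity)]
        nlinarith
    rw [e3, (EuclideanSpace.volume_preserving_symm_measurableEquiv_toLp (Fin N)).measure_preimage_equiv,
      measure_sdiff_null (by
        have : Nonempty (Fin N) := ⟨⟨0, hN⟩⟩
        simp), Real.volume_pi_ball _ (by norm_num)]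
    norm_num
  have h6 : ∫⁻ y : EN N in ball 0 1, g y.ofLp = ∫⁻ y : EN N in ball 0 1, ENNReal.ofReal (ρ y ^ N) :=
    lintegral_congr fun y => h4 y
  rw [h6, ← h3, h5] at h2
  rw [h1]
  exact ENNReal.eq_inv_of_mul_eq_one_left h2

end Pool.Agent.H624R3.AQ
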