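import Mathlib
import Pool.Agent.H624R3.AQ.Avg

set_option autoImplicit false
open MeasureTheory Metric Set ProbabilityTheory
open scoped ENNReal RealInnerProductSpace
open Pool.Agent.Results.MP_ed9c69_gt.CrossPolytope

namespace Pool.Agent.H624R3.AQ

lemma kap_vol (m : ℕ) : volume {x : Fin m → ℝ | ∑ t, x t ^ 2 ≤ 1} = volume (closedBall (0 : EN m) 1) := by
  have h := (EuclideanSpace.volume_preserving_symm_measurableEquiv_toLp (Fin m)).measure_preimage_equiv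
    {x : Fin m → ℝ | ∑ t, x t ^ 2 ≤ 1}
  rw [← h]
  congr 1
  ext x
  simp only [mem_preimage, mem_ofPred_eq, mem_closedBall_zero_iff]
  have e : (MeasurableEquiv.toLp 2 (Fin m → ℝ)).symm x = x.ofLp := rfl
  rw [e, EuclideanSpace.norm_eq, Real.sqrt_le_iff]
  simp

lemma kap_even (m : ℕ) (hm : 1 ≤ m) :
    volume (closedBall (0 : EN (2 * m)) 1) = ENNReal.ofReal (Real.pi ^ m / m.factorial) := by
  have hnt : Nontrivial (EN (2 * m)) :=
    Module.nontrivial_of_finrank_pos (R := ℝ) (by rw [finrank_euclideanSpace_fin]; omega)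
  rw [InnerProductSpace.volume_closedBall_of_dim_even (k := m) (by rw [finrank_euclideanSpace_fin])]
  rw [ENNReal.ofReal_one, one_pow, one_mul]

lemma kap_ball (m : ℕ) (hm : 1 ≤ m) :
    volume (ball (0 : EN (2 * m)) 1) = ENNReal.ofReal (Real.pi ^ m / m.factorial) := by
  have hnt : Nontrivial (EN (2 * m)) :=
    Module.nontrivial_of_finrank_pos (R := ℝ) (by rw [finrank_euclideanSpace_fin]; omega)
  rw [InnerProductSpace.volume_ball_of_dim_even (k := m) (by rw [finrank_euclideanSpace_fin])]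
  rw [ENNReal.ofReal_one, one_pow, one_mul]

lemma kap_one : volume {x : Fin 1 → ℝ | ∑ t, x t ^ 2 ≤ 1} = 2 := by
  have : {x : Fin 1 → ℝ | ∑ t, x t ^ 2 ≤ 1} = closedBall (0 : Fin 1 → ℝ) 1 := by
    ext x
    rw [mem_closedBall_zero_iff, mem_ofPred_eq, Fin.sum_univ_one, pi_norm_le_iff_of_nonneg zero_le_one,
      sq_le_one_iff_abs_le_one]
    constructor
    · intro h j
      have hj : j = 0 := Subsingleton.elim _ _
      subst hj
      exact h
    · intro h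
      exact h 0
  rw [this, Real.volume_pi_closedBall _ zero_le_one]
  norm_num

lemma integral_fr (k N : ℕ) : ∫ A, fr k N (C N) A
    ∂(Measure.pi (fun _ : Fin k => Measure.pi (fun _ : Fin N => gaussianReal 0 1))) =
    (GI k N).toReal := by
  rw [integral_eq_lintegral_of_nonneg_ae (Filter.Eventually.of_forall fun A => fr_nonneg k N _ A)
    (fr_meas k N).aestronglyMeasurable]
  rfl

lemma C_compact (N : ℕ) : IsCompact (C N) := compact_weights 1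

lemma C_convex (N : ℕ) : Convex ℝ (C N) := by
  intro x hx y hy a b ha hb hab
  have hx' : ∑ i, |x i| ≤ 1 := hx
  have hy' : ∑ i, |y i| ≤ 1 := hy
  show ∑ i, |(a • x + b • y) i| ≤ 1
  calc ∑ i, |(a • x + b • y) i| ≤ ∑ i, (a * |x i| + b * |y i|) := by
        refine Finset.sum_le_sum fun i _ => ?_
        simp only [Pi.add_apply, Pi.smul_apply, smul_eq_mul]
        refine (abs_add_le _ _).trans ?_
        rw [abs_mul, abs_mul, abs_of_nonneg ha, abs_of_nonneg hb]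
    _ = a * ∑ i, |x i| + b * ∑ i, |y i| := by
        rw [Finset.sum_add_distrib, Finset.mul_sum, Finset.mul_sum]
    _ ≤ a * 1 + b * 1 := by gcongr
    _ = 1 := by linarith

lemma C_interior (N : ℕ) : (interior (C N)).Nonempty := by
  have h1 : IsOpen {x : Fin N → ℝ | ∑ i, |x i| < 1} := isOpen_lt (by fun_prop) continuous_const
  refine ⟨0, ?_⟩
  refine interior_maximal (s := C N) ?_ h1 ?_
  · intro x hx
    have hx' : ∑ i, |x i| < 1 := hx
    exact hx'.le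
  · simp

/-- the numerical heart -/
lemma num_main : ∃ M : ℕ, 8 ≤ 2 * M ∧ GI 8 (2 * M) ≠ ⊤ ∧
    (Real.pi ^ 4 / Nat.factorial 4) ^ (2 * M) * (Real.pi ^ M / M.factorial) ^ 8 *
      (GI 8 (2 * M)).toReal < (2 ^ 8) ^ (2 * M) := by
  obtain ⟨M, hM1, hM2, hM3, hM4⟩ := exists_M 4 (Fintype.card (JJ (2 * 4)))
  refine ⟨M, by omega, ?_⟩
  have hpi := Real.pi_pos
  set m := Fintype.card (JJ (2 * 4)) with hm
  set N : ℝ := ((2 * M : ℕ) : ℝ) with hN
  have hN1 : 1 ≤ N := by rw [hN]; exact_mod_cast (by omega : 1 ≤ 2 * M)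
  have h1 := average_upper (M := M) (k := 4) (by norm_num) hM1 hM3 (r := 1) one_pos
  have h2 := (GI_le 8 (2 * M) (by omega) (by omega)).trans h1
  rw [← hN, ← hm] at h2
  set U : ℝ := (N ^ m * ((((2 * 4).factorial : ℝ) ^ 2 * N ^ (2 * 4) / 2 ^ (2 * 4)) ^
        m * (((1 : ℝ) ^ (2 * 4)) ^ (2 * M))⁻¹ *
        ((3 / 2) ^ (2 * 4 * (2 * M)) * (2 ^ (2 * 4)) ^ m)) /
        (Real.pi ^ M / M.factorial) ^ (2 * 4)) with hU
  have hU0 : 0 ≤ U := by positivity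
  refine ⟨ne_top_of_le_ne_top ENNReal.ofReal_ne_top h2, ?_⟩
  have h3 : (GI 8 (2 * M)).toReal ≤ U := by
    have := ENNReal.toReal_mono ENNReal.ofReal_ne_top h2
    rwa [ENNReal.toReal_ofReal hU0] at this
  have hκ : 0 < Real.pi ^ M / M.factorial := by positivity
  have h4 : (Real.pi ^ M / M.factorial) ^ 8 * U =
      N ^ m * ((((2 * 4).factorial : ℝ) ^ 2 * N ^ (2 * 4)) ^ m) * (3 / 2) ^ (8 * (2 * M)) := by
    rw [hU, show 2 * 4 = 8 by norm_num, mul_div_cancel₀ _ (by positivity)]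
    rw [one_pow, one_pow, inv_one, mul_one, div_pow]
    have : (((2 : ℝ) ^ 8) ^ m) ≠ 0 := by positivity
    field_simp
  have h5 : (Real.pi ^ 4 / Nat.factorial 4) * (3 / 4) ^ 8 ≤ 1 / 2 := by
    have h6 : Real.pi ^ 4 ≤ 3.15 ^ 4 := pow_le_pow_left₀ hpi.le Real.pi_lt_d2.le 4
    have h7 : (Nat.factorial 4 : ℝ) = 24 := by norm_num [Nat.factorial]
    rw [h7]
    have : Real.pi ^ 4 / 24 * (3 / 4) ^ 8 ≤ 3.15 ^ 4 / 24 * (3 / 4) ^ 8 := by gcongr
    refine this.trans ?_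
    norm_num
  calc (Real.pi ^ 4 / Nat.factorial 4) ^ (2 * M) * (Real.pi ^ M / M.factorial) ^ 8 *
      (GI 8 (2 * M)).toReal ≤ (Real.pi ^ 4 / Nat.factorial 4) ^ (2 * M) *
        (Real.pi ^ M / M.factorial) ^ 8 * U := by gcongr
    _ = (N ^ m * ((((2 * 4).factorial : ℝ) ^ 2 * N ^ (2 * 4)) ^ m)) *
          ((Real.pi ^ 4 / Nat.factorial 4) * (3 / 4) ^ 8) ^ (2 * M) * (2 ^ 8) ^ (2 * M) := by
        rw [mul_assoc, h4, mul_pow (Real.pi ^ 4 / (Nat.factorial 4 : ℝ))]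
        have e1 : ((3 : ℝ) / 2) ^ (8 * (2 * M)) = ((3 / 4) ^ 8) ^ (2 * M) * (2 ^ 8) ^ (2 * M) := by
          have e2 : ((3 : ℝ) / 2) ^ 8 = (3 / 4) ^ 8 * 2 ^ 8 := by norm_num
          rw [pow_mul, ← mul_pow, e2]
        rw [e1]
        generalize (Real.pi ^ 4 / (Nat.factorial 4 : ℝ)) ^ (2 * M) = z1
        generalize ((((2 * 4).factorial : ℝ) ^ 2 * N ^ (2 * 4)) ^ m) = z2
        generalize (((3 : ℝ) / 4) ^ 8) ^ (2 * M) = z3
        generalize ((2 : ℝ) ^ 8) ^ (2 * M) = z4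
        ring
    _ ≤ (N ^ m * ((((2 * 4).factorial : ℝ) ^ 2 * N ^ (2 * 4)) ^ m)) *
          (1 / 2) ^ (2 * M) * (2 ^ 8) ^ (2 * M) := by
        gcongr
    _ ≤ (N ^ m * ((((2 * 4).factorial : ℝ) ^ 2 * N ^ (2 * 4)) ^ m *
          ((1 / 2) ^ (2 * M) * N ^ (2 * 4)))) * (2 ^ 8) ^ (2 * M) := by
        have h8 : (1 : ℝ) ≤ N ^ (2 * 4) := one_le_pow₀ hN1
        have h9 : (N ^ m * ((((2 * 4).factorial : ℝ) ^ 2 * N ^ (2 * 4)) ^ m)) * (1 / 2) ^ (2 * M) ≤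
            (N ^ m * ((((2 * 4).factorial : ℝ) ^ 2 * N ^ (2 * 4)) ^ m)) * (1 / 2) ^ (2 * M) *
              N ^ (2 * 4) := le_mul_of_one_le_right (by positivity) h8
        calc _ ≤ ((N ^ m * ((((2 * 4).factorial : ℝ) ^ 2 * N ^ (2 * 4)) ^ m)) * (1 / 2) ^ (2 * M) *
              N ^ (2 * 4)) * (2 ^ 8) ^ (2 * M) := by gcongr
          _ = _ := by ring
    _ < 1 * (2 ^ 8) ^ (2 * M) := by
        gcongr
    _ = (2 ^ 8) ^ (2 * M) := one_mul _

lemma final (n : ℕ) (hn : 8 ≤ n) (κ κ8 I8 I1 : ℝ) (hκ : 0 < κ) (hκ8 : 0 < κ8) (hI8 : 0 < I8)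
    (hI1 : I1 = κ⁻¹) (hmain : κ8 ^ n * κ ^ 8 * I8 < (2 ^ 8) ^ n)
    (h : κ ^ (n - 1) * (κ / κ8 * I8 ^ (-(1 : ℝ) / n)) ^ (n - (n - 1)) ≤
      κ ^ (n - 8) * (κ / 2 * I1 ^ (-(1 : ℝ) / n)) ^ (n - (n - 8))) : False := by
  have hI1' : 0 < I1 := by rw [hI1]; positivity
  have e1 : n - (n - 1) = 1 := by omega
  have e2 : n - (n - 8) = 8 := by omega
  have hn0 : (n : ℝ) ≠ 0 := by positivity
  rw [e1, e2, pow_one] at h
  set a : ℝ := I8 ^ (-(1 : ℝ) / n) with ha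
  set b : ℝ := I1 ^ (-(1 : ℝ) / n) with hb
  have ha0 : 0 < a := Real.rpow_pos_of_pos hI8 _
  have hb0 : 0 < b := Real.rpow_pos_of_pos hI1' _
  have han : a ^ n = I8⁻¹ := by
    rw [ha, ← Real.rpow_natCast, ← Real.rpow_mul hI8.le, div_mul_cancel₀ _ hn0, Real.rpow_neg_one]
  have hbn : b ^ n = κ := by
    rw [hb, ← Real.rpow_natCast, ← Real.rpow_mul hI1'.le, div_mul_cancel₀ _ hn0, Real.rpow_neg_one,
      hI1, inv_inv]
  have h1 : 2 ^ 8 * a ≤ κ8 * b ^ 8 := by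
    have p1 : κ ^ (n - 1) * (κ / κ8 * a) = κ ^ n * a / κ8 := by
      have : κ ^ n = κ ^ (n - 1) * κ := by
        rw [← pow_succ]; congr 1; omega
      rw [this]; ring
    have p2 : κ ^ (n - 8) * (κ / 2 * b) ^ 8 = κ ^ n * b ^ 8 / 2 ^ 8 := by
      have : κ ^ n = κ ^ (n - 8) * κ ^ 8 := by
        rw [← pow_add]; congr 1; omega
      rw [this]; ring
    rw [p1, p2, div_le_div_iff₀ hκ8 (by positivity)] at h
    have h2 : κ ^ n * (2 ^ 8 * a) ≤ κ ^ n * (κ8 * b ^ 8) := by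
      calc κ ^ n * (2 ^ 8 * a) = κ ^ n * a * 2 ^ 8 := by ring
        _ ≤ κ ^ n * b ^ 8 * κ8 := h
        _ = _ := by ring
    exact le_of_mul_le_mul_left h2 (by positivity)
  have h3 := pow_le_pow_left₀ (by positivity) h1 n
  have hb8 : (b ^ 8) ^ n = κ ^ 8 := by rw [← pow_mul, mul_comm, pow_mul, hbn]
  rw [mul_pow, mul_pow, han, hb8] at h3
  have h4 : (2 ^ 8) ^ n ≤ κ8 ^ n * κ ^ 8 * I8 := by
    have := mul_le_mul_of_nonneg_right h3 hI8.le
    rw [mul_assoc, inv_mul_cancel₀ hI8.ne', mul_one] at this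
    exact this
  exact absurd hmain (not_lt.2 h4)

end Pool.Agent.H624R3.AQ
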